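import Pool.Agent.H923R2.FP.Stubs

/-! Liberation identity (task F1 of h923_tasks). -/

set_option autoImplicit false

namespace Pool.Agent.H923R2.FP.T_F1

open Pool.Agent.H923R2.FP

theorem ssum_zero {Q R M : Type} [AddCommMonoid M] (f : List (Lt Q R) → List (Lt Q R) → M)
    (w : List (Lt Q R)) : ∀ l : List (Lt Q R), (∀ l' r' : List (Lt Q R),
      r'.length < w.length → f l' r' = 0) → ssum f l w = 0 := by
  induction w with
  | nil => intro l _; rfl
  | cons z w ih =>
    intro l h
    show (if z.isS then f l w else 0) + ssum f (l ++ [z]) w = 0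
    rw [ih (l ++ [z]) (fun l' r' hr => h l' r' (hr.trans (by simp))), h l w (by simp)]
    simp

theorem first_s {Q R : Type} (w : List (Lt Q R)) : (∀ z ∈ w, z.isS = false) ∨
    ∃ l r : List (Lt Q R), (∀ z ∈ l, z.isS = false) ∧ w = l ++ Lt.s :: r := by
  induction w with
  | nil => exact Or.inl (by simp)
  | cons z w ih =>
    cases hz : z.isS with
    | true =>
      cases z with
      | q x => simp [Lt.isS] at hz
      | r x => simp [Lt.isS] at hz
      | s => exact Or.inr ⟨[], w, by simp, rfl⟩
    | false =>
      rcases ih with h | ⟨l, r, hl, rfl⟩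
      · refine Or.inl fun y hy => ?_
        rcases List.mem_cons.1 hy with rfl | hy
        · exact hz
        · exact h y hy
      · refine Or.inr ⟨z :: l, r, fun y hy => ?_, rfl⟩
        rcases List.mem_cons.1 hy with rfl | hy
        · exact hz
        · exact hl y hy

theorem t_F1 (ha : S_F1a) (hb : S_F1b) : S_F1 := by
  intro A Q R _ _ _ _ _ _ _ τ π ρ s hτ hs
  have key : ∀ n : ℕ, ∀ w : List (Lt Q R), w.length ≤ n → phi τ (vl π ρ s) 1 1 w = 0 := by
    intro n
    induction n with
    | zero =>
      intro w hw
      rw [List.length_eq_zero_iff.1 (Nat.le_zero.1 hw)]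
      rfl
    | succ n ih =>
      intro w hw
      rcases first_s w with h | ⟨l, r, hl, rfl⟩
      · exact ha A Q R τ π ρ s hτ hs w h
      · rw [hb A Q R τ π ρ s hτ hs l r hl]
        refine ssum_zero _ r [] fun l' r' hr => ?_
        rw [ih (l ++ r') (by simp at hw ⊢; omega), mul_zero]
  exact fun w => key w.length w le_rfl

end Pool.Agent.H923R2.FP.T_F1
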